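import Pool.Agent.STE.Fact

/-!
# Sharply transitive sets: normal nilpotent semiregular subgroups

Let `D` be a digraph of out-degree `2` with vertex set `V` (`Dig E`: no loops, in-degree and
out-degree `2`, strongly connected), let `G` be a transitive group of automorphisms of `D` and let
`H` be a normal subgroup of `G` that is nilpotent and semiregular, such that the two out-neighbours
of every vertex lie in one orbit of `H`. Then Q1 has a positive answer for `D`: there are a
1-factorization `(F₁, F₂)` and a sharply transitive set in the group generated by `F₁` and `F₂` that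
contains `1`, `F₁` and `F₂` (`HasSTE E`).
-/

set_option autoImplicit false

namespace Pool.Agent.Results.MP_1d476e_co.NilpotentNormal

open Pool.Agent.STE

theorem result (V : Type) [Finite V] [Nonempty V] (E : V → V → Prop) (hE : Dig E)
    (G H : Subgroup (Equiv.Perm V)) (hG : ∀ g ∈ G, IsAut E g) (hT : ∀ v w, ∃ g ∈ G, g v = w)
    (hHG : H ≤ G) (hn : ∀ g ∈ G, ∀ h ∈ H, g * h * g⁻¹ ∈ H)
    (hs : ∀ h ∈ H, ∀ v, h v = v → h = 1) (hnil : Group.IsNilpotent H)
    (hw : ∀ v w w', E v w → E v w' → ∃ h ∈ H, h w = w') : HasSTE E :=
  nil hE (G := G) (H := H) hG hT hHG hn hs hnil hw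

end Pool.Agent.Results.MP_1d476e_co.NilpotentNormal
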