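import Pool.Agent.STE.Fam

/-!
# Sharply transitive sets: vertex-transitive digraphs of order `p ^ k` and `2 p ^ k`

Let `D` be a vertex-transitive digraph of out-degree `2` with vertex set `V` (`Dig E`: no loops,
in-degree and out-degree `2`, strongly connected). If the number of vertices is `p ^ k` or
`2 * p ^ k` for a prime `p` and some `k`, then Q1 has a positive answer for `D`: there are a
1-factorization `(F₁, F₂)` and a sharply transitive set in the group generated by `F₁` and `F₂` that
contains `1`, `F₁` and `F₂` (`HasSTE E`).
-/

set_option autoImplicit false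

namespace Pool.Agent.Results.MP_1d476e_co.PrimePower

open Pool.Agent.STE

theorem result (V : Type) [Finite V] [Nonempty V] (E : V → V → Prop) (hE : Dig E)
    (hT : ∀ v w, ∃ g, IsAut E g ∧ g v = w) (p k : ℕ) (hp : p.Prime)
    (hn : Nat.card V = p ^ k ∨ Nat.card V = 2 * p ^ k) : HasSTE E := by
  rcases hn with hn | hn
  · exact order_pp hE hT hp hn
  · exact order_tpp hE hT hp hn

end Pool.Agent.Results.MP_1d476e_co.PrimePower
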