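import Pool.Agent.STE.Fam

/-!
# Sharply transitive sets: solvable transitive groups

Let `D` be a digraph of out-degree `2` with vertex set `V` (`Dig E`: no loops, in-degree and
out-degree `2`, strongly connected) and let `G` be a transitive solvable group of automorphisms of
`D`. If `G` is supersolvable (for instance nilpotent) or the number of vertices is not divisible by
`4`, then Q1 has a positive answer for `D`: there are a 1-factorization `(F₁, F₂)` and a sharply
transitive set in the group generated by `F₁` and `F₂` that contains `1`, `F₁` and `F₂`
(`HasSTE E`).
-/

set_option autoImplicit false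

namespace Pool.Agent.Results.MP_1d476e_co.Solvable

open Pool.Agent.STE

theorem result (V : Type) [Finite V] [Nonempty V] (E : V → V → Prop) (hE : Dig E)
    (G : Subgroup (Equiv.Perm V)) (hG : ∀ g ∈ G, IsAut E g) (hT : ∀ v w, ∃ g ∈ G, g v = w)
    (hs : Group.IsSolvable G) (h : IsSupersolvable G ∨ ¬ 4 ∣ Nat.card V) : HasSTE E := by
  rcases h with h | h
  · exact super hE (G := G) hG hT h
  · exact solv hE (G := G) hG hT hs h

end Pool.Agent.Results.MP_1d476e_co.Solvable
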