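import Pool.Agent.STE.Two

/-!
# Sharply transitive sets: semiregular groups with at most two orbits

Let `D` be a digraph of out-degree `2` with vertex set `V` (`Dig E`: no loops, in-degree and
out-degree `2`, strongly connected). `D` is not assumed to be vertex-transitive. If `D` has a
semiregular group `R` of automorphisms with at most two orbits (that is, the number of vertices is at
most twice the order of `R`), then Q1 has a positive answer for `D`: there are a 1-factorization
`(F₁, F₂)` and a sharply transitive set in the group generated by `F₁` and `F₂` that contains `1`,
`F₁` and `F₂` (`HasSTE E`).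
-/

set_option autoImplicit false

namespace Pool.Agent.Results.MP_1d476e_co.TwoOrbits

open Pool.Agent.STE

theorem result (V : Type) [Finite V] [Nonempty V] (E : V → V → Prop) (hE : Dig E)
    (R : Subgroup (Equiv.Perm V)) (hR : ∀ g ∈ R, IsAut E g)
    (hs : ∀ g ∈ R, ∀ v, g v = v → g = 1) (hc : Nat.card V ≤ 2 * Nat.card R) : HasSTE E :=
  two_orbits hE (R := R) hR hs hc

end Pool.Agent.Results.MP_1d476e_co.TwoOrbits
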